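import Pool.Agent.Helper73.TWM.MET
import Pool.Agent.Helper99.TWR.VIN
import Pool.Agent.Helper41.TWR.CHZ
import Pool.Agent.Helper47.TW.WLim
import Pool.Agent.Helper40.TWM.Stmts

/-!
Row MUE of the sheet TWM (MP_7a8f48_an): continuous totally ergodic towers are uniquely ergodic,
with all their powers.
-/

set_option linter.unusedSectionVars false

open MeasureTheory Filter Topology Finset
open scoped ComplexConjugate

namespace Pool.Agent.Helper73.TWM

open Pool.Agent.Helper98.TW (tr pk SS Tow TI la lb ex U)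
open Pool.Agent.Helper16.AZ (T mm)
open Pool.Agent.Helper99.TWR (measure_ext_ex ex_iter ex_split tr_iter tr_measurable SS_measurable
  tr_tr)
open Pool.Agent.Helper46.TWR (ex_norm ex_cont ex_meas ex_zero ex_addx)
open Pool.Agent.Helper41.TWR (exists_ex_ne)
open Pool.Agent.Helper40.TWM (ST_MUE St)
open Pool.Agent.Helper16.BZ (EQ)

variable {N : ℕ} {lev : Fin N → ℕ} {f f' : Fin N → T N → U}

/-- the functions of the induction -/
noncomputable def FF (lev : Fin N → ℕ) (k : ℕ) (a d : Fin N → ℤ) (x : T N) : ℂ :=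
  ex a (tr lev k x) * ex d x

theorem FF_norm (k : ℕ) (a d : Fin N → ℤ) (x : T N) : ‖FF lev k a d x‖ = 1 := by
  unfold FF
  rw [norm_mul, ex_norm, ex_norm, one_mul]

theorem FF_meas (k : ℕ) (a d : Fin N → ℤ) : Measurable (FF lev k a d) :=
  ((ex_meas a).comp (tr_measurable k)).mul (ex_meas d)

/-- the iterates of the functions -/
theorem FF_iter (hf : Tow lev f) {k : ℕ} {a d : Fin N → ℤ} (hd : la lev k d) (n : ℕ) :
    ∃ H : T N → ℂ, Measurable H ∧
      ∀ x, FF lev k a d ((SS f)^[n] x) = ex d x * H (tr lev k x) := by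
  obtain ⟨G, hG, hGx⟩ := ex_iter hf hd n
  refine ⟨fun y => ex a (tr lev k ((SS f)^[n] y)) * G y, ?_, fun x => ?_⟩
  · exact ((ex_meas a).comp ((tr_measurable k).comp ((SS_measurable hf).iterate n))).mul hG
  · show ex a (tr lev k ((SS f)^[n] x)) * ex d ((SS f)^[n] x) =
      ex d x * (ex a (tr lev k ((SS f)^[n] (tr lev k x))) * G (tr lev k x))
    rw [hGx, tr_iter hf]
    ring

theorem FF_int (k : ℕ) {a d : Fin N → ℤ} (hd : la lev k d) (hd0 : d ≠ 0) :
    ∫ x, FF lev k a d x ∂(mm N) = 0 := by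
  obtain ⟨t, ht, hdt⟩ := exists_ex_ne hd0 hd
  have h1 : ∀ x, FF lev k a d (x + t) = ex d t * FF lev k a d x := by
    intro x
    have h2 : tr lev k (x + t) = tr lev k x := by
      funext i
      simp only [tr]
      by_cases hi : lev i < k
      · rw [if_pos hi, if_pos hi, Pi.add_apply, ht i hi.ne, add_zero]
      · rw [if_neg hi, if_neg hi]
    unfold FF
    rw [h2, ex_addx]
    ring
  have h3 : ∫ x, FF lev k a d (x + t) ∂(mm N) = ∫ x, FF lev k a d x ∂(mm N) :=
    integral_add_right_eq_self (FF lev k a d) t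
  simp only [h1] at h3
  rw [integral_const_mul] at h3
  have h4 : (ex d t - 1) * ∫ x, FF lev k a d x ∂(mm N) = 0 := by
    rw [sub_mul, h3, one_mul, sub_self]
  rcases mul_eq_zero.1 h4 with h | h
  · exact absurd (sub_eq_zero.1 h) hdt
  · exact h

/-- Jensen -/
theorem norm_int_sq {Ω : Type} [MeasurableSpace Ω] {μ : Measure Ω} [IsProbabilityMeasure μ]
    {F : Ω → ℂ} (hF : MemLp F 2 μ) : ‖∫ x, F x ∂μ‖ ^ 2 ≤ ∫ x, ‖F x‖ ^ 2 ∂μ := by
  have hone : MemLp (fun _ : Ω => (1 : ℂ)) 2 μ := memLp_const 1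
  have e1 : (inner ℂ (hone.toLp _) (hF.toLp F) : ℂ) = ∫ x, F x ∂μ := by
    rw [L2.inner_def]
    refine integral_congr_ae ?_
    filter_upwards [hone.coeFn_toLp, hF.coeFn_toLp] with x hx hx2
    rw [hx, hx2]; simp
  have e2 : ‖hone.toLp (fun _ : Ω => (1 : ℂ))‖ ^ 2 = 1 := by
    rw [norm_sq_toLp]; simp
  have h1 := norm_inner_le_norm (𝕜 := ℂ) (hone.toLp (fun _ : Ω => (1 : ℂ))) (hF.toLp F)
  rw [e1] at h1
  have h2 : ‖∫ x, F x ∂μ‖ ^ 2 ≤ (‖hone.toLp (fun _ : Ω => (1 : ℂ))‖ * ‖hF.toLp F‖) ^ 2 := by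
    gcongr
  rw [mul_pow, e2, one_mul, norm_sq_toLp] at h2
  exact h2

/-- invariant measures which are Haar on the lower levels give mass zero to the characters -/
theorem FF_zero (hf : Tow lev f) {m k : ℕ} {a d : Fin N → ℤ} (hd : la lev k d) (hd0 : d ≠ 0)
    (hE : Ergodic (SS f)^[m] (mm N)) {ν : Measure (T N)} [IsProbabilityMeasure ν]
    (hν : MeasurePreserving (SS f)^[m] ν ν) (hk : ν.map (tr lev k) = (mm N).map (tr lev k)) :
    ∫ x, FF lev k a d x ∂ν = 0 := by
  set F : T N → ℂ := FF lev k a d with hFd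
  have hFm : Measurable F := FF_meas k a d
  have hFn : ∀ x, ‖F x‖ = 1 := fun x => FF_norm k a d x
  choose H hH hHx using fun n => FF_iter hf (a := a) hd n
  set A : ℕ → T N → ℂ := fun n x => (∑ i ∈ range n, F (((SS f)^[m])^[i] x)) / (n : ℂ) with hA
  set K : ℕ → T N → ℝ := fun n y => ‖(∑ i ∈ range n, H (m * i) y) / (n : ℂ)‖ ^ 2 with hK
  have hKm : ∀ n, Measurable (K n) := fun n =>
    (((Finset.measurable_sum _ fun i _ => hH (m * i)).div_const _).norm).pow_const 2
  have hAK : ∀ n x, ‖A n x‖ ^ 2 = K n (tr lev k x) := by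
    intro n x
    have h1 : A n x = ex d x * ((∑ i ∈ range n, H (m * i) (tr lev k x)) / (n : ℂ)) := by
      simp only [hA]
      rw [← mul_div_assoc, Finset.mul_sum]
      congr 1
      refine Finset.sum_congr rfl fun i _ => ?_
      rw [← Function.iterate_mul]
      exact hHx (m * i) x
    rw [h1, norm_mul, ex_norm, one_mul]
  have hAm : ∀ n, Measurable (A n) := fun n =>
    (Finset.measurable_sum _ fun i _ =>
      hFm.comp (((SS_measurable hf).iterate m).iterate i)).div_const _
  have hAb : ∀ n x, ‖A n x‖ ≤ 1 := by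
    intro n x
    simp only [hA]
    rw [norm_div, Complex.norm_natCast]
    rcases Nat.eq_zero_or_pos n with rfl | hn
    · simp
    · have hn' : (0 : ℝ) < n := by exact_mod_cast hn
      rw [div_le_one hn']
      refine (norm_sum_le _ _).trans ?_
      refine (Finset.sum_le_sum fun i _ => (hFn _).le).trans ?_
      simp
  have hAν : ∀ (ρ : Measure (T N)) [IsProbabilityMeasure ρ] (n : ℕ), MemLp (A n) 2 ρ :=
    fun ρ _ n => MemLp.of_bound (hAm n).aestronglyMeasurable 1 (Eventually.of_forall (hAb n))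
  -- the integrals of the squares agree
  have e1 : ∀ n, ∫ x, ‖A n x‖ ^ 2 ∂ν = ∫ x, ‖A n x‖ ^ 2 ∂(mm N) := by
    intro n
    have h1 : ∀ ρ : Measure (T N), ∫ x, ‖A n x‖ ^ 2 ∂ρ = ∫ y, K n y ∂(ρ.map (tr lev k)) := by
      intro ρ
      rw [integral_map (tr_measurable k).aemeasurable (hKm n).aestronglyMeasurable]
      exact integral_congr_ae (Eventually.of_forall fun x => hAK n x)
    rw [h1, h1, hk]
  have hFL : MemLp F 2 (mm N) :=
    MemLp.of_bound hFm.aestronglyMeasurable 1 (Eventually.of_forall fun x => (hFn x).le)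
  have hlim := met hE hFL (FF_int k hd hd0)
  have h2 : ∀ n : ℕ, 1 ≤ n → ‖∫ x, F x ∂ν‖ ^ 2 ≤ ∫ x, ‖A n x‖ ^ 2 ∂(mm N) := by
    intro n hn
    have h3 : ∫ x, A n x ∂ν = ∫ x, F x ∂ν := by
      have hFi : Integrable F ν :=
        Integrable.of_bound hFm.aestronglyMeasurable 1 (Eventually.of_forall fun x => (hFn x).le)
      simp only [hA]
      rw [integral_div, integral_finsetSum]
      · have h4 : ∀ i ∈ range n, ∫ x, F (((SS f)^[m])^[i] x) ∂ν = ∫ x, F x ∂ν := by
          intro i _
          have h5 := hν.iterate i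
          rw [← integral_map (μ := ν) (φ := ((SS f)^[m])^[i]) h5.measurable.aemeasurable
            hFm.aestronglyMeasurable, h5.map_eq]
        rw [Finset.sum_congr rfl h4, Finset.sum_const, card_range, nsmul_eq_mul,
          mul_div_cancel_left₀]
        exact_mod_cast Nat.one_le_iff_ne_zero.1 hn
      · intro i _
        exact (hν.iterate i).integrable_comp_of_integrable hFi
    rw [← h3, ← e1]
    exact norm_int_sq (hAν ν n)
  have h6 : ‖∫ x, F x ∂ν‖ ^ 2 ≤ 0 := by
    refine ge_of_tendsto hlim ?_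
    filter_upwards [eventually_ge_atTop 1] with n hn
    exact h2 n hn
  have h7 : ‖∫ x, F x ∂ν‖ = 0 := by
    have := sq_nonneg ‖∫ x, F x ∂ν‖
    nlinarith [norm_nonneg (∫ x, F x ∂ν)]
  exact norm_eq_zero.1 h7

theorem map_tr (hf : Tow lev f) {m : ℕ} (hE : Ergodic (SS f)^[m] (mm N)) {ν : Measure (T N)}
    [IsProbabilityMeasure ν] (hν : MeasurePreserving (SS f)^[m] ν ν) (k : ℕ) :
    ν.map (tr lev k) = (mm N).map (tr lev k) := by
  induction k with
  | zero =>
    have h0 : (tr lev 0 : T N → T N) = fun _ => 0 := by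
      funext x i
      simp [tr]
    rw [h0, Measure.map_const, Measure.map_const]
    simp
  | succ k ih =>
    have : IsProbabilityMeasure (ν.map (tr lev (k + 1))) :=
      Measure.isProbabilityMeasure_map (tr_measurable _).aemeasurable
    have : IsProbabilityMeasure ((mm N).map (tr lev (k + 1))) :=
      Measure.isProbabilityMeasure_map (tr_measurable _).aemeasurable
    refine measure_ext_ex fun a => ?_
    rw [integral_map (tr_measurable _).aemeasurable (ex_cont a).aestronglyMeasurable,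
      integral_map (tr_measurable _).aemeasurable (ex_cont a).aestronglyMeasurable]
    set a₀ : Fin N → ℤ := fun i => if lev i < k then a i else 0 with ha₀
    set d : Fin N → ℤ := fun i => if lev i = k then a i else 0 with hd
    have hdl : la lev k d := by
      intro i hi
      by_contra h
      exact hi (by simp [hd, h])
    have e1 : ∀ x, ex a (tr lev (k + 1) x) = FF lev k a₀ d x := fun x => ex_split a k x
    simp only [e1]
    by_cases hd0 : d = 0
    · have e2 : ∀ x, FF lev k a₀ d x = ex a₀ (tr lev k x) := by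
        intro x
        unfold FF
        rw [hd0, ex_zero, mul_one]
      simp only [e2]
      rw [← integral_map (tr_measurable _).aemeasurable (ex_cont a₀).aestronglyMeasurable,
        ← integral_map (tr_measurable _).aemeasurable (ex_cont a₀).aestronglyMeasurable, ih]
    · rw [FF_zero hf hdl hd0 hE hν ih, FF_int k hdl hd0]

theorem uniq (hf : Tow lev f) {m : ℕ} (hE : Ergodic (SS f)^[m] (mm N)) {ν : Measure (T N)}
    [IsProbabilityMeasure ν] (hν : MeasurePreserving (SS f)^[m] ν ν) : ν = mm N := by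
  obtain ⟨k, hk⟩ : ∃ k, ∀ i, lev i < k := by
    refine ⟨(Finset.univ.sup lev) + 1, fun i => ?_⟩
    exact Nat.lt_succ_of_le (Finset.le_sup (Finset.mem_univ i))
  have h := map_tr hf hE hν k
  have h0 : (tr lev k : T N → T N) = id := by
    funext x i
    simp [tr, hk i]
  rw [h0, Measure.map_id, Measure.map_id] at h
  exact h

theorem st_MUE : ST_MUE := by
  intro N lev f f' hTI hc hSt p hp F hF x
  have hE : Ergodic (SS f)^[p] (mm N) := hSt.erg p hp
  have hS : Continuous (SS f) := by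
    refine continuous_pi fun i => ?_
    exact (continuous_apply i).add (hc i)
  have hτ : Continuous (SS f)^[p] := hS.iterate p
  set I : ℂ := ∫ y, F y ∂(mm N) with hI
  set Ψ : T N → ℂ := fun y => F y - I with hΨ
  have hΨc : Continuous Ψ := hF.sub continuous_const
  have hFi : ∀ ρ : Measure (T N), IsProbabilityMeasure ρ → Integrable F ρ := by
    intro ρ _
    obtain ⟨B, hB⟩ := isCompact_univ.exists_bound_of_continuousOn hF.continuousOn
    exact Integrable.of_bound hF.aestronglyMeasurable B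
      (Eventually.of_forall fun y => hB y (Set.mem_univ y))
  have key := fun ε hε => Pool.Agent.Helper47.TW.wlim_gen hτ x Ψ hΨc 0 (fun lam hl he => by
    have h1 : lam = mm N := uniq hTI.t hE he.toMeasurePreserving
    subst h1
    simp only [hΨ]
    rw [integral_sub (hFi _ inferInstance) (integrable_const _)]
    simp [hI]) ε hε
  -- the sums over `range`
  rw [Metric.tendsto_atTop]
  intro ε hε
  obtain ⟨B, hB⟩ := isCompact_univ.exists_bound_of_continuousOn hΨc.continuousOn
  have hB' : ∀ y, ‖Ψ y‖ ≤ B := fun y => hB y (Set.mem_univ y)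
  have h1 := key (ε / 3) (by positivity)
  have h2 : ∀ᶠ n : ℕ in atTop, 2 * B / (ε / 3) ≤ n :=
    (tendsto_natCast_atTop_atTop (R := ℝ)).eventually_ge_atTop _
  obtain ⟨M, hM⟩ := eventually_atTop.1 (h1.and (h2.and (eventually_ge_atTop 1)))
  refine ⟨M, fun n hn => ?_⟩
  obtain ⟨h3, h4, h5⟩ := hM n hn
  have hn0 : (0 : ℝ) < n := by exact_mod_cast h5
  have hnc : (n : ℂ) ≠ 0 := by exact_mod_cast (Nat.one_le_iff_ne_zero.1 h5)
  have e1 : ∀ i, (SS f)^[p * i] x = ((SS f)^[p])^[i] x := fun i => by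
    rw [← Function.iterate_mul]
  have e2 : ∑ i ∈ range n, Ψ (((SS f)^[p])^[i] x) =
      Ψ x - Ψ (((SS f)^[p])^[n] x) + ∑ i ∈ Finset.Icc 1 n, Ψ (((SS f)^[p])^[i] x) := by
    have h6 : ∑ i ∈ range (n + 1), Ψ (((SS f)^[p])^[i] x) =
        Ψ x + ∑ i ∈ Finset.Icc 1 n, Ψ (((SS f)^[p])^[i] x) := by
      rw [Finset.sum_range_succ', add_comm]
      congr 1
      rw [Finset.range_eq_Ico, Finset.sum_Ico_add' (fun i => Ψ (((SS f)^[p])^[i] x)) 0 n 1]
      rfl
    rw [Finset.sum_range_succ] at h6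
    linear_combination h6
  have e3 : (∑ i ∈ range n, F ((SS f)^[p * i] x)) / (n : ℂ) - I =
      (∑ i ∈ range n, Ψ (((SS f)^[p])^[i] x)) / (n : ℂ) := by
    simp only [hΨ]
    rw [Finset.sum_sub_distrib, Finset.sum_const, card_range, nsmul_eq_mul, sub_div,
      mul_div_cancel_left₀ _ hnc]
    simp only [e1]
  rw [dist_eq_norm, e3, norm_div, Complex.norm_natCast, div_lt_iff₀ hn0, e2]
  have hx1 := hB' x
  have hx2 := hB' (((SS f)^[p])^[n] x)
  have h7 : ‖Ψ x - Ψ (((SS f)^[p])^[n] x) + ∑ i ∈ Finset.Icc 1 n, Ψ (((SS f)^[p])^[i] x)‖ ≤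
      (B + B) + (0 + ε / 3) * n :=
    (norm_add_le _ _).trans (add_le_add ((norm_sub_le _ _).trans (add_le_add hx1 hx2)) h3)
  have h8 : 2 * B ≤ ε / 3 * n := by
    rw [div_le_iff₀ (by positivity)] at h4
    linarith
  nlinarith [mul_pos hε hn0]

end Pool.Agent.Helper73.TWM
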