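import Pool.Agent.Helper73.TWR.Tool

/-!
The mean ergodic theorem for ergodic systems (MP_7a8f48_an).
-/

set_option linter.unusedSectionVars false

open MeasureTheory Filter Topology Finset
open scoped ComplexConjugate

namespace Pool.Agent.Helper73.TWM

variable {Ω : Type} [MeasurableSpace Ω] {μ : Measure Ω} [IsProbabilityMeasure μ]

/-- the Koopman operator -/
noncomputable def koop {R : Ω → Ω} (hR : MeasurePreserving R μ μ) : Lp ℂ 2 μ →L[ℂ] Lp ℂ 2 μ :=
  (Lp.compMeasurePreservingₗᵢ ℂ R hR).toContinuousLinearMap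

theorem koop_toLp {R : Ω → Ω} (hR : MeasurePreserving R μ μ) {F : Ω → ℂ} (hF : MemLp F 2 μ) :
    koop hR (hF.toLp F) = (hF.comp_measurePreserving hR).toLp (F ∘ R) := rfl

theorem koop_iter {R : Ω → Ω} (hR : MeasurePreserving R μ μ) {F : Ω → ℂ} (hF : MemLp F 2 μ)
    (n : ℕ) : (koop hR)^[n] (hF.toLp F) =
      (hF.comp_measurePreserving (hR.iterate n)).toLp (F ∘ R^[n]) := by
  induction n with
  | zero => rfl
  | succ n ih =>
    rw [Function.iterate_succ_apply', ih, koop_toLp]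
    rfl

theorem norm_sq_toLp {F : Ω → ℂ} (hF : MemLp F 2 μ) :
    ‖hF.toLp F‖ ^ 2 = ∫ x, ‖F x‖ ^ 2 ∂μ := by
  have h1 : (inner ℂ (hF.toLp F) (hF.toLp F) : ℂ) = ((∫ x, ‖F x‖ ^ 2 ∂μ : ℝ) : ℂ) := by
    rw [L2.inner_def, ← integral_complex_ofReal]
    refine integral_congr_ae ?_
    filter_upwards [hF.coeFn_toLp] with x hx
    rw [hx, inner_self_eq_norm_sq_to_K]
    simp
  rw [inner_self_eq_norm_sq_to_K] at h1
  have h2 : ((‖hF.toLp F‖ ^ 2 : ℝ) : ℂ) = ((∫ x, ‖F x‖ ^ 2 ∂μ : ℝ) : ℂ) := by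
    rw [← h1]; simp
  exact_mod_cast h2

/-- the mean ergodic theorem -/
theorem met {R : Ω → Ω} (hR : Ergodic R μ) {F : Ω → ℂ} (hF : MemLp F 2 μ)
    (h0 : ∫ x, F x ∂μ = 0) :
    Tendsto (fun n : ℕ => ∫ x, ‖(∑ i ∈ range n, F (R^[i] x)) / (n : ℂ)‖ ^ 2 ∂μ) atTop (𝓝 0) := by
  set W := koop hR.toMeasurePreserving with hW
  set f : Lp ℂ 2 μ := hF.toLp F with hf
  have hW1 : ‖W‖ ≤ 1 := LinearIsometry.norm_toContinuousLinearMap_le _
  have hlim := ContinuousLinearMap.tendsto_birkhoffAverage_orthogonalProjection W hW1 f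
  set S := W.eqLocus (1 : Lp ℂ 2 μ →L[ℂ] Lp ℂ 2 μ) with hS
  set h : Lp ℂ 2 μ := ((S.orthogonalProjectionOnto f : S) : Lp ℂ 2 μ) with hh
  have hmem : h ∈ S := (S.orthogonalProjectionOnto f).2
  have hWh : W h = h := hmem
  -- `h` is constant
  obtain ⟨c, hc⟩ : ∃ c : ℂ, (h : Ω → ℂ) =ᵐ[μ] Function.const Ω c := by
    have h1 : (h : Ω → ℂ) ∘ R =ᵐ[μ] h := by
      have h2 := Lp.coeFn_compMeasurePreserving h hR.toMeasurePreserving
      have h3 : Lp.compMeasurePreserving R hR.toMeasurePreserving h = h := hWh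
      rw [h3] at h2
      exact h2.symm
    exact hR.quasiErgodic.ae_eq_const_of_ae_eq_comp_ae (Lp.aestronglyMeasurable h) h1
  have hone : MemLp (fun _ : Ω => (1 : ℂ)) 2 μ := memLp_const 1
  set one : Lp ℂ 2 μ := hone.toLp _ with hone'
  have h1S : one ∈ S := by
    show W one = one
    rw [hone', koop_toLp]
    rfl
  have hin : (inner ℂ one h : ℂ) = inner ℂ one f := by
    have h2 := S.starProjection_inner_eq_zero f one h1S
    have h3 : (inner ℂ one (f - h) : ℂ) = 0 := by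
      rw [← inner_conj_symm]
      have : (inner ℂ (f - h) one : ℂ) = 0 := h2
      rw [this, map_zero]
    rw [inner_sub_right] at h3
    exact (sub_eq_zero.1 h3).symm
  have e1 : (inner ℂ one f : ℂ) = 0 := by
    rw [L2.inner_def, ← h0]
    refine integral_congr_ae ?_
    filter_upwards [hone.coeFn_toLp, hF.coeFn_toLp] with x hx hx2
    rw [hx, hx2]; simp
  have e2 : (inner ℂ one h : ℂ) = c := by
    rw [L2.inner_def]
    have : (fun x => (inner ℂ (one x) (h x) : ℂ)) =ᵐ[μ] fun _ => c := by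
      filter_upwards [hone.coeFn_toLp, hc] with x hx hx2
      rw [hx, hx2]; simp
    rw [integral_congr_ae this]; simp
  have hc0 : c = 0 := by rw [← e2, hin, e1]
  have hh0 : h = 0 := by
    rw [Lp.eq_zero_iff_ae_eq_zero]
    filter_upwards [hc] with x hx
    rw [hx, hc0]; rfl
  have hlim' : Tendsto (fun n : ℕ => ‖birkhoffAverage ℂ W _root_.id n f‖ ^ 2) atTop (𝓝 0) := by
    have h4 : Tendsto (fun n : ℕ => birkhoffAverage ℂ W _root_.id n f) atTop (𝓝 h) := hlim
    rw [hh0] at h4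
    have := h4.norm.pow 2
    simpa using this
  refine hlim'.congr fun n => ?_
  have hG : MemLp (fun x => (∑ i ∈ range n, F (R^[i] x)) / (n : ℂ)) 2 μ := by
    have h5 : MemLp (fun x => ∑ i ∈ range n, F (R^[i] x)) 2 μ :=
      memLp_finsetSum _ fun i _ => hF.comp_measurePreserving (hR.toMeasurePreserving.iterate i)
    simpa only [div_eq_mul_inv] using h5.mul_const ((n : ℂ)⁻¹)
  have h6 : birkhoffAverage ℂ W _root_.id n f = hG.toLp _ := by
    rw [birkhoffAverage, birkhoffSum]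
    apply Lp.ext
    have h7 : ∀ᵐ x ∂μ, ∀ i, ((koop hR.toMeasurePreserving)^[i] (hF.toLp F) : Lp ℂ 2 μ) x =
        F (R^[i] x) := by
      refine ae_all_iff.2 fun i => ?_
      rw [koop_iter]
      exact (hF.comp_measurePreserving (hR.toMeasurePreserving.iterate i)).coeFn_toLp
    have h8 : ∀ s : Finset ℕ, ((∑ i ∈ s, ((koop hR.toMeasurePreserving)^[i] (hF.toLp F)) :
        Lp ℂ 2 μ) : Ω → ℂ) =ᵐ[μ] fun x => ∑ i ∈ s, F (R^[i] x) := by
      intro s
      classical
      induction s using Finset.induction_on with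
      | empty =>
        simp only [sum_empty]
        exact Lp.coeFn_zero _ _ _
      | insert a s ha ih =>
        rw [sum_insert ha]
        filter_upwards [Lp.coeFn_add ((koop hR.toMeasurePreserving)^[a] (hF.toLp F))
          (∑ i ∈ s, ((koop hR.toMeasurePreserving)^[i] (hF.toLp F))), ih, h7] with x hx hx2 hx3
        rw [hx, Pi.add_apply, hx2, hx3, sum_insert ha]
    filter_upwards [Lp.coeFn_smul ((n : ℂ)⁻¹)
      (∑ i ∈ range n, ((koop hR.toMeasurePreserving)^[i] (hF.toLp F))), h8 (range n),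
      hG.coeFn_toLp] with x hx hx2 hx3
    rw [hx3]
    refine hx.trans ?_
    rw [Pi.smul_apply, hx2, smul_eq_mul, div_eq_inv_mul]
  rw [h6, norm_sq_toLp]

end Pool.Agent.Helper73.TWM
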